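import Pool.Agent.Q93.LT.Fld

/-!
# The moments of `#Cl[l]` for the real quadratic fields whose radicands arise from an arbitrary integer by changing a few digits

Take an arbitrary integer `N` with `K` digits in base `b` and change `r ≤ K / 2` of its digits. The average over the choices of the
`r` positions of `(#Cl(ℚ(√m))[l]) ^ k`, in particular of `p ^ (k r_p)` for `l = p`, is at most `C (b ^ (K / 2) exp (- c r)) ^ k`: for `r`
proportional to `K` this saves a power of the size `b ^ K` of the discriminants over the trivial bound.
-/

set_option autoImplicit false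

namespace Pool.Agent.Results.MP_16912e_nt.FewDigitMoments

open Finset
open scoped NumberField

/-- The digit number `i` (counted from the right, beginning with `0`) of `n` in base `b`. -/
def digit (b i n : ℕ) : ℕ := n / b ^ i % b

/-- The number which arises from the number `N` with at most `K` digits in base `b`, if for every `i ∈ S`
the digit number `i` is replaced by `f i`. -/
def change (b K N : ℕ) (f : ℕ → ℕ) (S : Finset ℕ) : ℕ :=
  ∑ i ∈ range K, (if i ∈ S then f i else digit b i N) * b ^ i

/-- The field `ℚ(√m)`, as a subfield of `ℝ`. -/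
noncomputable def field (m : ℕ) : IntermediateField ℚ ℝ := IntermediateField.adjoin ℚ {Real.sqrt m}

/-- The number of ideal classes of `ℚ(√m)` killed by `l`. -/
noncomputable def torsion (m l : ℕ) : ℕ := Nat.card {c : ClassGroup (𝓞 (field m)) // c ^ l = 1}

open Classical in
/-- Let `l ≥ 1`, `k ≥ 0` and `b ≥ 2`. There are `c, C > 0` such that for all `K`, all `r ≤ K / 2`, every integer `0 ≤ N < b ^ K` and
every prescription `f` of a new digit (different from the digit of `N`) for every position: the sum of `(#Cl(ℚ(√m))[l]) ^ k` over all
choices `S` of `r` of the `K` positions for which the number `m` obtained from `N` by replacing the digits at the positions in `S`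
is not a square is at most `C (b ^ (K / 2) exp (- c r)) ^ k` times the number of the choices. -/
theorem result (l : ℕ) (hl : 1 ≤ l) (k b : ℕ) (hb : 2 ≤ b) :
    ∃ c : ℝ, 0 < c ∧ ∃ C : ℝ, 0 < C ∧ ∀ (K r N : ℕ) (f : ℕ → ℕ), 2 * r ≤ K → N < b ^ K →
      (∀ j, f j < b ∧ f j ≠ digit b j N) →
      ∑ S ∈ (powersetCard r (range K)).filter (fun S => ¬ IsSquare (change b K N f S)), (torsion (change b K N f S) l : ℝ) ^ k ≤
        C * (Real.sqrt ((b : ℝ) ^ K) * Real.exp (-(c * r))) ^ k * K.choose r := by
  obtain ⟨c, hc, C, hC, h⟩ := Pool.Agent.Q93.LT.moment true l hl k hb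
  refine ⟨c, hc, C, hC, fun K r N f hr hN hf => ?_⟩
  refine h K r N f hr hN hf ((powersetCard r (range K)).filter (fun S => ¬ IsSquare (change b K N f S)))
    (fun m => torsion m l) (filter_subset _ _) ?_
  intro S hS
  rw [mem_filter] at hS
  obtain ⟨_, -, h2⟩ := Pool.Agent.Q93.LT.real_tor (change b K N f S) hS.2
  exact h2 l

end Pool.Agent.Results.MP_16912e_nt.FewDigitMoments
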