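import Pool.Agent.Q56.WL.Tors

/-!
# The moments of `#Cl[l]` for ALL real quadratic fields with radicands in windows near powers with non-integral exponents

Let `e > 1` be not an integer. Choose, for every `i ≤ X`, ANY integer `m i` in the window of length `X ^ c` around `β + w i ^ e`.
The average over `i ≤ X` of `(#Cl(ℚ(√(m i)))[l]) ^ k`, in particular of `p ^ (k r_p)` for `l = p`, is at most
`C ((|β| + X ^ e) ^ (1/2) X ^ (- c)) ^ k`: a power saving over the trivial bound, for every `l` and `k`, along sparse
sequences of radicands (only `X` of about `X ^ e`), for the maximum over the windows. In particular for almost all `i` all real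
quadratic fields with radicands in the windows have small `l`-torsion.

Proof. Many small split primes give such a bound (Ellenberg–Venkatesh, in the deterministic form of `Pool.Agent.Q93.LT`). The
number of the split primes up to a small power of `X` is controlled for all integers in the windows at the same time, with high
moments and estimates of exponential sums (van der Corput) (`Pool.Agent.Q56.WL.gen`).
-/

set_option autoImplicit false

namespace Pool.Agent.Results.MP_16912e_nt.NearPowers

open Finset
open scoped NumberField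

/-- The field `ℚ(√m)`, as a subfield of `ℝ`. -/
noncomputable def field (m : ℕ) : IntermediateField ℚ ℝ := IntermediateField.adjoin ℚ {Real.sqrt m}

/-- The number of ideal classes of `ℚ(√m)` killed by `l`. -/
noncomputable def torsion (m l : ℕ) : ℕ := Nat.card {c : ClassGroup (𝓞 (field m)) // c ^ l = 1}

open Classical in
/-- Let `l ≥ 1`, `k ≥ 0`, let `e > 1` be not an integer and `w ≠ 0`. There are `c, C > 0` such that for all real `β`, all `X` and all
integers `m i ≥ 0` with `|m i - (β + w i ^ e)| ≤ X ^ c` (`1 ≤ i ≤ X`): the sum of `(#Cl(ℚ(√(m i)))[l]) ^ k` over the `i ≤ X` for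
which `m i` is not a square is at most `C ((|β| + X ^ e) ^ (1 / 2) X ^ (- c)) ^ k X`. -/
theorem result (l : ℕ) (hl : 1 ≤ l) (k : ℕ) (e w : ℝ) (he : 1 < e) (hk : ∀ k : ℕ, e ≠ k) (hw : w ≠ 0) :
    ∃ c : ℝ, 0 < c ∧ ∃ C : ℝ, 0 < C ∧ ∀ (β : ℝ) (X : ℕ) (m : ℕ → ℕ),
      (∀ i ∈ Icc 1 X, |(m i : ℝ) - (β + w * (i : ℝ) ^ e)| ≤ (X : ℝ) ^ c) →
      ∑ i ∈ (Icc 1 X).filter (fun i => ¬ IsSquare (m i)), (torsion (m i) l : ℝ) ^ k ≤
        C * (Real.sqrt (|β| + (X : ℝ) ^ e) * (X : ℝ) ^ (-c)) ^ k * X := by
  obtain ⟨c, hc, C, hC, h⟩ := Pool.Agent.Q56.WL.moment_near true l hl k he hk hw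
  refine ⟨c, hc, C, hC, fun β X m hm => ?_⟩
  refine h β X ((Icc 1 X).filter (fun i => ¬ IsSquare (m i))) m (fun i => torsion (m i) l) (filter_subset _ _) ?_
  intro i hi
  rw [mem_filter] at hi
  obtain ⟨_, -, h2⟩ := Pool.Agent.Q93.LT.real_tor (m i) hi.2
  exact ⟨hm i hi.1, h2 l⟩

end Pool.Agent.Results.MP_16912e_nt.NearPowers
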