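import Pool.Agent.H38R2.CG3.All
import Pool.Agent.Y159.QS.Quad
import Pool.Agent.Q100.TC.Coll

/-!
# The `p`-ranks of the class groups of real quadratic fields from collisions of products of tiny primes

For a real quadratic field `K` let `κ_m(y, k)` be the probability that two independent random ideals
whose norms are products of `k` distinct primes of the interval `(y, 2y]` have classes that differ by
an `m`-th power.  For all `a > 2` and `ε > 0` the following holds for 100% of the fundamental
discriminants `D > 0`, for the quadratic field `K` of discriminant `D`: for suitable `y` and `k` with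
`2 y ≤ (log D)^a` and `2 k ≤ log D / log log D`,

* `1 ≤ #Cl(K)[m] κ_m(y, k) ≤ 1 + ε` for all `m` at once;
* for all primes `p > 1 + ε` at once `p ^ r_p(D) = #Cl(K)[p]` with `r_p(D) = ⌈log_p (1 / κ_p(y, k))⌉`.
-/

set_option autoImplicit false

namespace Pool.Agent.Results.MP_16912e_nt.PRankFromCollisions

open Filter Finset NumberField
open scoped Classical

/-- The number of the ideals of the ring of integers of `K` that have the class `C` and whose norm is a
product of `k` distinct primes of the interval `(y, 2y]`. -/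
noncomputable def cnt (K : Type) [Field K] [NumberField K] (y k : ℕ) (C : ClassGroup (𝓞 K)) : ℕ :=
  ∑ s ∈ ((Finset.Ioc y (2 * y)).filter Nat.Prime).powersetCard k,
    Nat.card {I : nonZeroDivisors (Ideal (𝓞 K)) //
      Ideal.absNorm (I : Ideal (𝓞 K)) = ∏ p ∈ s, p ∧ ClassGroup.mk0 I = C}

/-- The number of the ideals whose norm is a product of `k` distinct primes of `(y, 2y]`. -/
noncomputable def total (K : Type) [Field K] [NumberField K] (y k : ℕ) : ℕ :=
  ∑ C : ClassGroup (𝓞 K), cnt K y k C

/-- The probability that the classes of two independent random ideals whose norms are products of `k`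
distinct primes of `(y, 2y]` differ by an `m`-th power. -/
noncomputable def kappa (K : Type) [Field K] [NumberField K] (y k m : ℕ) : ℝ :=
  (∑ C : ClassGroup (𝓞 K), ∑ C' : ClassGroup (𝓞 K),
    if ∃ B : ClassGroup (𝓞 K), C = C' * B ^ m then (cnt K y k C : ℝ) * (cnt K y k C' : ℝ) else 0) /
    (total K y k : ℝ) ^ 2

/-- `#Cl(K)[m]`, the number of the ideal classes killed by `m`. -/
noncomputable def tor (K : Type) [Field K] [NumberField K] (m : ℕ) : ℕ :=
  Nat.card {x : ClassGroup (𝓞 K) // x ^ m = 1}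

/-- `D > 1` is a fundamental discriminant. -/
def Fundamental (D : ℕ) : Prop :=
  1 < D ∧ ((D % 4 = 1 ∧ Squarefree D) ∨
    ∃ d : ℕ, D = 4 * d ∧ (d % 4 = 2 ∨ d % 4 = 3) ∧ Squarefree d)

/-- The property of the discriminant `D` in the theorem. -/
def Good (a ε : ℝ) (D : ℕ) : Prop :=
  ∀ (K : Type) [Field K] [NumberField K], Module.finrank ℚ K = 2 → discr K = (D : ℤ) →
    ∃ y k : ℕ, 2 * (y : ℝ) ≤ (Real.log D) ^ a ∧
      2 * (k : ℝ) ≤ Real.log D / Real.log (Real.log D) ∧ 0 < total K y k ∧
      (∀ m : ℕ, 1 ≤ tor K m * kappa K y k m ∧ tor K m * kappa K y k m ≤ 1 + ε) ∧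
      ∀ p : ℕ, p.Prime → 1 + ε < p → tor K p = p ^ ⌈Real.logb p (1 / kappa K y k p)⌉₊

theorem good_of {a ε : ℝ} {D d : ℕ} (ha : 0 ≤ a) (hd : 16 ≤ d) (hD : D = d ∨ D = 4 * d)
    (hg : Pool.Agent.H38R2.CG3.GoodE a ε d) : Good a ε D := by
  intro K _ _ hK hdisc
  have hx : ∃ x : K, x ^ 2 = (d : K) := by
    obtain ⟨α, -, hα⟩ := Pool.Agent.Y159.QS.exists_sqrt (K := K) hK
    rw [hdisc] at hα
    rcases hD with rfl | rfl
    · exact ⟨α, by rw [hα]; push_cast; rfl⟩
    · refine ⟨α / 2, ?_⟩
      rw [div_pow, hα]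
      push_cast
      ring
  obtain ⟨⟨y, k, hy, hk, hpos, heq⟩, -⟩ := hg K hK hx
  have hdD : d ≤ D := by rcases hD with rfl | rfl <;> omega
  have hd16 : (16 : ℝ) ≤ d := by exact_mod_cast hd
  have hdDr : (d : ℝ) ≤ D := by exact_mod_cast hdD
  have hexp : Real.exp (Real.exp 1) ≤ 16 := by
    have h1 : Real.exp 1 < 2.7182818286 := Real.exp_one_lt_d9
    have h2 : Real.exp (Real.exp 1) ≤ Real.exp 2.7182818286 := Real.exp_le_exp.2 h1.le
    have h3 : Real.exp 2.7182818286 ≤ 16 := by
      have h4 : Real.exp 2.7182818286 = Real.exp 1 ^ (2.7182818286 : ℝ) := by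
        rw [← Real.exp_mul, one_mul]
      rw [h4]
      calc Real.exp 1 ^ (2.7182818286 : ℝ) ≤ (2.7182818286 : ℝ) ^ (2.7182818286 : ℝ) :=
            Real.rpow_le_rpow (Real.exp_pos 1).le h1.le (by norm_num)
        _ ≤ (2.7182818286 : ℝ) ^ (2.75 : ℝ) :=
            Real.rpow_le_rpow_of_exponent_le (by norm_num) (by norm_num)
        _ ≤ 16 := by
            have h5 : (2.7182818286 : ℝ) ^ (2.75 : ℝ) = ((2.7182818286 : ℝ) ^ (11 : ℕ)) ^ (1 / 4 : ℝ) := by
              rw [← Real.rpow_natCast, ← Real.rpow_mul (by norm_num)]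
              norm_num
            rw [h5]
            have h6 : (16 : ℝ) = ((16 : ℝ) ^ (4 : ℕ)) ^ (1 / 4 : ℝ) := by
              rw [← Real.rpow_natCast, ← Real.rpow_mul (by norm_num)]
              norm_num
            rw [h6]
            exact Real.rpow_le_rpow (by norm_num) (by norm_num) (by norm_num)
    exact h2.trans h3
  have hlogd : Real.exp 1 ≤ Real.log d := by
    rw [Real.le_log_iff_exp_le (by linarith)]
    exact hexp.trans hd16
  have hlogD : Real.log d ≤ Real.log D := Real.log_le_log (by linarith) hdDr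
  have he : (1 : ℝ) < Real.exp 1 := by
    have := Real.exp_one_gt_d9
    linarith
  have hll : 0 < Real.log (Real.log d) := Real.log_pos (by linarith)
  have hll' : 0 < Real.log (Real.log D) := Real.log_pos (by linarith)
  have hmono : Real.log d / Real.log (Real.log d) ≤ Real.log D / Real.log (Real.log D) := by
    have h1 := Real.log_div_self_antitoneOn (a := Real.log d) hlogd
      (show Real.exp 1 ≤ Real.log D from hlogd.trans hlogD) hlogD
    simp only at h1
    rw [div_le_div_iff₀ (by linarith) (by linarith)] at h1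
    rw [div_le_div_iff₀ hll hll']
    linarith
  have hcoll := fun m => Pool.Agent.Q100.TC.coll_pow (fun C => cnt K y k C) m hpos ε heq
  have hc2 : ∀ m, 1 ≤ (tor K m : ℝ) * kappa K y k m ∧ (tor K m : ℝ) * kappa K y k m ≤ 1 + ε := by
    intro m
    exact hcoll m
  refine ⟨y, k, hy.trans (Real.rpow_le_rpow (by linarith) hlogD ha), hk.trans hmono, hpos, hc2, ?_⟩
  intro p hp hpε
  obtain ⟨r, hr⟩ := Pool.Agent.Q100.TC.card_pow (G := ClassGroup (𝓞 K)) p hp
  have hr' : tor K p = p ^ r := hr
  have h1 := hc2 p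
  rw [hr'] at h1
  have h2 := Pool.Agent.Q100.TC.read_exp hp.one_lt hpε h1.1 h1.2
  rw [hr', ← h2]

/-- The radicand of the discriminant `D`. -/
def rad (D : ℕ) : ℕ := if D % 4 = 1 then D else D / 4

lemma rad_spec {D : ℕ} (h : Fundamental D) : Squarefree (rad D) ∧ (D = rad D ∨ D = 4 * rad D) ∧
    (D = rad D ↔ rad D % 4 = 1) ∧ 2 ≤ rad D := by
  unfold rad
  obtain ⟨h1, h2 | ⟨d, rfl, h3, h4⟩⟩ := h
  · rw [if_pos h2.1]
    exact ⟨h2.2, Or.inl rfl, ⟨fun _ => h2.1, fun _ => rfl⟩, h1⟩
  · rw [if_neg (by omega), Nat.mul_div_cancel_left d (by norm_num)]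
    exact ⟨h4, Or.inr rfl, by omega, by omega⟩

/-- **Theorem.** For all `a > 2` and `ε > 0` the number of the fundamental discriminants `0 < D < X`
without the property `Good`, divided by `X`, tends to zero.  (The number of all fundamental
discriminants `0 < D < X` is asymptotic to `3 X / π²`.) -/
theorem result (a ε : ℝ) (ha : 2 < a) (hε : 0 < ε) :
    Tendsto (fun X : ℕ => (((Finset.range X).filter
      (fun D => Fundamental D ∧ ¬ Good a ε D)).card : ℝ) / X) atTop (nhds 0) := by
  have h1 := Pool.Agent.H38R2.CG3.finalE_true a ε ha hε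
  have h16 : Tendsto (fun X : ℕ => (16 : ℝ) / X) atTop (nhds 0) :=
    tendsto_const_div_atTop_nhds_zero_nat 16
  have h2 := h1.add h16
  rw [add_zero] at h2
  refine squeeze_zero (fun X => by positivity) (fun X => ?_) h2
  rw [← add_div]
  apply div_le_div_of_nonneg_right _ (Nat.cast_nonneg _)
  have hsub : ((Finset.range X).filter (fun D => Fundamental D ∧ ¬ Good a ε D)).image rad ⊆
      ((Finset.Icc 2 X).filter (fun d => Squarefree d ∧
        ¬ Pool.Agent.H38R2.CG3.GoodE a ε d)) ∪ Finset.range 16 := by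
    intro d hd
    obtain ⟨D, hD, rfl⟩ := Finset.mem_image.1 hd
    rw [Finset.mem_filter, Finset.mem_range] at hD
    obtain ⟨s1, s2, -, s4⟩ := rad_spec hD.2.1
    rw [Finset.mem_union, Finset.mem_filter, Finset.mem_Icc, Finset.mem_range]
    by_cases h3 : rad D < 16
    · exact Or.inr h3
    · refine Or.inl ⟨⟨s4, by rcases s2 with h | h <;> omega⟩, s1, fun hg => hD.2.2 ?_⟩
      exact good_of (by linarith) (by omega) s2 hg
  have hinj : Set.InjOn rad ((Finset.range X).filter
      (fun D => Fundamental D ∧ ¬ Good a ε D) : Set ℕ) := by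
    intro D hD E hE hDE
    rw [Finset.mem_coe, Finset.mem_filter] at hD hE
    obtain ⟨-, d2, d3, -⟩ := rad_spec hD.2.1
    obtain ⟨-, e2, e3, -⟩ := rad_spec hE.2.1
    rw [← hDE] at e2 e3
    by_cases h4 : rad D % 4 = 1
    · exact (d3.2 h4).trans (e3.2 h4).symm
    · rcases d2 with d2 | d2
      · exact absurd (d3.1 d2) h4
      · rcases e2 with e2 | e2
        · exact absurd (e3.1 e2) h4
        · exact d2.trans e2.symm
  have hcard := Finset.card_le_card hsub
  rw [Finset.card_image_of_injOn hinj] at hcard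
  have h5 := hcard.trans (Finset.card_union_le _ _)
  rw [Finset.card_range] at h5
  exact_mod_cast h5

end Pool.Agent.Results.MP_16912e_nt.PRankFromCollisions
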