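import Pool.Agent.Y159.TG.Fin
import Pool.Agent.Y542.TQ.Sup
import Pool.Agent.Y495.TG.LS
import Pool.Agent.Y759.TG.Res
import Pool.Agent.Y907.TG.Sm
import Pool.Agent.Y261.TG.Cnt
import Pool.Agent.Y495.TG.Grow
import Pool.Agent.Q100.HM.Basic

set_option autoImplicit false

/-!
# Torsion in the class groups of the quadratic fields of discriminant `f(t)`

Let `f` be a polynomial of degree `n ≥ 1` with integer coefficients which is not a constant times the
square of a polynomial.  For the quadratic fields `K_t`, real or imaginary, of discriminant `f(t)` and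
integers `l_1, …, l_r` the mean value of `∏_i #Cl(K_t)[l_i]` over `|t| ≤ T` is bounded by
`T ^ ε ∏_i (T ^ n) ^ (1/2 - (n + 1) / (2 n (l_i + r)))`, and similarly for `t` in short intervals.
-/

open NumberField Polynomial

namespace Pool.Agent.Results.MP_16912e_nt.PolynomialFamilies

/-- `f` is not of the form `c g²` with `c ∈ ℚ` and `g ∈ ℚ[X]`. -/
def NotSquare (f : ℤ[X]) : Prop :=
  ∀ (c : ℚ) (g : ℚ[X]), f.map (Int.castRingHom ℚ) ≠ C c * g ^ 2

/-- `#Cl(K)[l]`, the number of ideal classes of `K` killed by `l`. -/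
noncomputable def tor (K : Type) [Field K] [NumberField K] (l : ℕ) : ℕ :=
  Nat.card {x : ClassGroup (𝓞 K) // x ^ l = 1}

/-- The bound `√(N ^ n) / (h N ^ n) ^ (1 / (2 (l + r)))`. -/
noncomputable def scale (n l r : ℕ) (N h : ℝ) : ℝ :=
  √(N ^ n) / (h * N ^ n) ^ (1 / (2 * ((l : ℝ) + r)))

/-- The interval `[N, N + h]` is not too short: `(h N ^ n) ^ (3 r / (2 (l + r))) ≤ h`. -/
def LongEnough (n l r : ℕ) (N h : ℝ) : Prop :=
  (h * N ^ n) ^ (3 * (r : ℝ) / (2 * ((l : ℝ) + r))) ≤ h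

/-- The exponent `n / 2 - (n + 1) / (2 (l + r))`. -/
noncomputable def expo (n l r : ℕ) : ℝ := (n : ℝ) / 2 - ((n : ℝ) + 1) / (2 * ((l : ℝ) + r))

/-- **Theorem.** Let `f ∈ ℤ[X]` be of degree `n` and not of the form `c g²`, `r ≥ 1`, `l_i ≥ 1` for
`i < r` and `ε > 0`.  There is a constant `C` such that:

* for all real numbers `1 ≤ h ≤ N` with `(h N ^ n) ^ (3 r / (2 (l_i + r))) ≤ h` for all `i`, all
  finite sets `S` of integers `t` with `N ≤ |t| ≤ N + h` and quadratic fields `K_t` of discriminant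
  `f(t)`,
  `∑_{t ∈ S} ∏_i #Cl(K_t)[l_i] ≤ C N ^ ε h ∏_i √(N ^ n) / (h N ^ n) ^ (1 / (2 (l_i + r)))`;
* if `3 r (n + 1) ≤ 2 (l_i + r)` for all `i`, then for all `T ≥ 1`, all finite sets `S` of integers
  `t` with `|t| ≤ T` and quadratic fields `K_t` of discriminant `f(t)`,
  `∑_{t ∈ S} ∏_i #Cl(K_t)[l_i] ≤ C T ^ (1 + ε + ∑_i (n / 2 - (n + 1) / (2 (l_i + r))))`. -/
theorem result (f : ℤ[X]) (hf : NotSquare f) (r : ℕ) (hr : 1 ≤ r) (l : Fin r → ℕ)
    (hl : ∀ i, 1 ≤ l i) (ε : ℝ) (hε : 0 < ε) : ∃ C : ℝ, 0 < C ∧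
    (∀ N h : ℝ, 1 ≤ h → h ≤ N → (∀ i, LongEnough f.natDegree (l i) r N h) →
      ∀ (S : Finset ℤ) (K : ℤ → Type) [∀ t, Field (K t)] [∀ t, NumberField (K t)],
      (∀ t ∈ S, (N ≤ |(t : ℝ)| ∧ |(t : ℝ)| ≤ N + h) ∧ Module.finrank ℚ (K t) = 2 ∧
        discr (K t) = f.eval t) →
      ∑ t ∈ S, ∏ i, (tor (K t) (l i) : ℝ) ≤
        C * N ^ ε * h * ∏ i, scale f.natDegree (l i) r N h) ∧
    ((∀ i, 3 * r * (f.natDegree + 1) ≤ 2 * (l i + r)) → ∀ T : ℝ, 1 ≤ T →
      ∀ (S : Finset ℤ) (K : ℤ → Type) [∀ t, Field (K t)] [∀ t, NumberField (K t)],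
      (∀ t ∈ S, |(t : ℝ)| ≤ T ∧ Module.finrank ℚ (K t) = 2 ∧ discr (K t) = f.eval t) →
      ∑ t ∈ S, ∏ i, (tor (K t) (l i) : ℝ) ≤
        C * T ^ (1 + ε + ∑ i, expo f.natDegree (l i) r)) := by
  classical
  have hcnt := Pool.Agent.Y261.TG.cnt Pool.Agent.Y495.TG.ls Pool.Agent.Y759.TG.res
    Pool.Agent.Y907.TG.Sm.sm
  have hgrow := Pool.Agent.Y495.TG.grow
  have hsup := Pool.Agent.Y542.TQ.sup
  choose c hc0 hc using fun i =>
    Pool.Agent.Y159.TG.short_g' hcnt hgrow hsup f hf (l i) r (hl i) hr ε hε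
  have hne1 : Nonempty (Fin r) := ⟨⟨0, hr⟩⟩
  have hcpos : 0 < ∑ i, c i := Finset.sum_pos (fun i _ => hc0 i) Finset.univ_nonempty
  have hpart1 : ∀ N h : ℝ, 1 ≤ h → h ≤ N → (∀ i, LongEnough f.natDegree (l i) r N h) →
      ∀ (S : Finset ℤ) (K : ℤ → Type) [∀ t, Field (K t)] [∀ t, NumberField (K t)],
      (∀ t ∈ S, (N ≤ |(t : ℝ)| ∧ |(t : ℝ)| ≤ N + h) ∧ Module.finrank ℚ (K t) = 2 ∧
        discr (K t) = f.eval t) →
      ∑ t ∈ S, ∏ i, (tor (K t) (l i) : ℝ) ≤
        (∑ i, c i) * N ^ ε * h * ∏ i, scale f.natDegree (l i) r N h := by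
    intro N h hh hhN hcond S K _ _ hS
    have hN : 0 < N := by linarith
    have hQ : 0 < h * N ^ f.natDegree := mul_pos (by linarith) (pow_pos hN _)
    have hb : ∀ i, 0 < scale f.natDegree (l i) r N h := fun i =>
      div_pos (Real.sqrt_pos.2 (pow_pos hN _)) (Real.rpow_pos_of_pos hQ _)
    have hmain := Pool.Agent.Q100.HM.sum_prod_le S r hr
      (fun i t => (tor (K t) (l i) : ℝ)) (fun i t _ => Nat.cast_nonneg _)
      (fun i => scale f.natDegree (l i) r N h) c hb (N ^ ε * h) ?_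
    · refine hmain.trans (le_of_eq ?_)
      ring
    · intro i
      refine (hc i N h hh hhN (hcond i) S K hS).trans (le_of_eq ?_)
      unfold scale
      ring
  by_cases hbig : ∀ i, 3 * r * (f.natDegree + 1) ≤ 2 * (l i + r)
  · choose d hd0 hd using fun i =>
      Pool.Agent.Y159.TG.full_g hcnt hgrow hsup f hf (l i) r (hl i) hr (hbig i) ε hε
    refine ⟨max (∑ i, c i) (∑ i, d i), lt_max_of_lt_left hcpos, ?_, ?_⟩
    · intro N h hh hhN hcond S K _ _ hS
      refine (hpart1 N h hh hhN hcond S K hS).trans ?_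
      have hN : 0 < N := by linarith
      have hQ : 0 < h * N ^ f.natDegree := mul_pos (by linarith) (pow_pos hN _)
      have hb : 0 ≤ ∏ i, scale f.natDegree (l i) r N h :=
        Finset.prod_nonneg fun i _ =>
          (div_pos (Real.sqrt_pos.2 (pow_pos hN _)) (Real.rpow_pos_of_pos hQ _)).le
      have hh0 : 0 ≤ h := by linarith
      gcongr
      exact le_max_left _ _
    · intro _ T hT S K _ _ hS
      have hT0 : 0 < T := by linarith
      have hb : ∀ i, 0 < T ^ expo f.natDegree (l i) r := fun i => Real.rpow_pos_of_pos hT0 _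
      have hmain := Pool.Agent.Q100.HM.sum_prod_le S r hr
        (fun i t => (tor (K t) (l i) : ℝ)) (fun i t _ => Nat.cast_nonneg _)
        (fun i => T ^ expo f.natDegree (l i) r) d hb (T ^ (1 + ε)) ?_
      · refine hmain.trans ?_
        rw [Real.rpow_add hT0 (1 + ε), Real.rpow_sum_of_pos hT0, ← mul_assoc]
        gcongr
        exact le_max_right _ _
      · intro i
        refine (hd i T hT S K hS).trans (le_of_eq ?_)
        rw [mul_assoc, ← Real.rpow_natCast (T ^ expo f.natDegree (l i) r) r,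
          ← Real.rpow_mul hT0.le, ← Real.rpow_add hT0]
        congr 2
        unfold expo
        ring
  · exact ⟨∑ i, c i, hcpos, hpart1, fun h => absurd h hbig⟩

end Pool.Agent.Results.MP_16912e_nt.PolynomialFamilies
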